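import Pool.Agent.H95.Winf

set_option autoImplicit false
open Pool.Agent.H95.Winf

theorem Pool.Agent.Results.MP_4423d6_an.Q2No.result :
    (∃ (N : ℕ) (Ω θ₀ : Fin N → ℝ), 1 ≤ N ∧ kc Ω < kpc θ₀ Ω) ∧
      ∀ c : ℝ, ∃ (N : ℕ) (Ω θ₀ : Fin N → ℝ), 1 ≤ N ∧ ((c * ‖Ω‖ : ℝ) : EReal) < kpc θ₀ Ω :=
  Pool.Agent.H95.Winf.main
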